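import Pool.Agent.Eqt.Main

set_option autoImplicit false

/-!
# MP_86eb6d_gt: the exponential map of a circle invariant torus reaches all equivariant maps

Definitions in `Pool/Agent/Eqt/Defs.lean`. Proof: for invariant velocities
`u(t,y) ∂_x + W(t) ∂_y` the Euler equations reduce to the motion of the shift `τ`, with
`A² (∫ h) W² + V(τ)` constant; the condition that the flow at time 1 is the given map up to
integers becomes a scalar fixed point equation, which is a contraction when the shift is
`c + N`, `N` large (`Fix.lean`, `Time.lean`, `Flow.lean`, `Main.lean`).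
-/

namespace Pool.Agent.Results.MP_86eb6d_gt.EquivariantTorus

open Pool.Agent.Eqt
open scoped ContDiff

/-- For every smooth metric `E dx² + 2F dx dy + G dy²` on `ℝ²/ℤ²` with coefficients depending on
`y` only (area form `A dx dy`), every `C¹` diffeomorphism of the torus which is isotopic to the
identity, preserves the area and commutes with the translations in `x` is `exp_e v` for
infinitely many `v`: for every `R` there is such a `v = (a(y) f(y) + b(y)) ∂_x + w ∂_y` with
`w ≥ R`, `a`, `b` smooth and 1-periodic, `f(y) = φ₁(0,y)` (so `v` is as regular as the map). -/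
theorem result (E F G : ℝ → ℝ) (A : ℝ) (hM : IsMetric E F G A) (φ₁ φ₂ : ℝ → ℝ → ℝ)
    (hφ : IsEquivariant φ₁ φ₂) (R : ℝ) :
    ∃ (a b : ℝ → ℝ) (w : ℝ), R ≤ w ∧ ContDiff ℝ ∞ a ∧ ContDiff ℝ ∞ b ∧
      (∀ y, a (y + 1) = a y ∧ b (y + 1) = b y) ∧
      ExpEq (fun _ y => E y) (fun _ y => F y) (fun _ y => G y)
        (fun _ y => a y * φ₁ 0 y + b y) (fun _ _ => w) φ₁ φ₂ :=
  main E F G A hM φ₁ φ₂ hφ R

end Pool.Agent.Results.MP_86eb6d_gt.EquivariantTorus
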